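import Pool.Agent.H15.BPB.FailNu

/-!
# The BPBp-nu does not imply property (nu)

For `𝕜` the real or the complex field there is a Banach space over `𝕜` that has the
Bishop-Phelps-Bollobas property for the numerical radius but fails property (nu).

The space is the `ℓ₂` sum of the two dimensional spaces `𝕜 × 𝕜` normed by
`|v|² (1 + c s² + δ n⁻² osc (n s))` (this is the square of the norm), where
`s = 2 Re (conj a * b) / |v|²` for `v = (a, b)` and `osc x = cos x + sin 2x`.
-/

set_option autoImplicit false

namespace Pool.Agent.Results.MP_3cb207_an.Counterexample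

open Pool.Agent.H15.BPB

/-- Over each of the fields `ℝ` and `ℂ` there is a Banach space with the
Bishop-Phelps-Bollobas property for the numerical radius that does not have property (nu). -/
theorem result (𝕜 : Type) [RCLike 𝕜] :
    ∃ (X : Type) (_ : NormedAddCommGroup X) (_ : NormedSpace 𝕜 X),
      CompleteSpace X ∧ HasBPBpNu 𝕜 X ∧ ¬ HasPropertyNu 𝕜 X :=
  ⟨XX 𝕜, inferInstance, inferInstance, inferInstance, hasBPBpNu_XX, not_hasPropertyNu⟩

end Pool.Agent.Results.MP_3cb207_an.Counterexample
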